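import Mathlib

/-!
Two linear forms in the square-free algebra: a nonzero functional on degree `m` that
kills the ideal generated by two linear forms (secant hypersurfaces of rational normal curves).
-/

namespace Pool.Agent.X178.SF

open Matrix MvPolynomial

theorem sum_det_updateRow {σ K : Type*} [Fintype σ] [DecidableEq σ] [CommRing K]
    (N E : Matrix σ σ K) :
    ∑ m, (N.updateRow m ((N * E) m)).det = E.trace * N.det := by
  have h1 : ∀ m, (N.updateRow m ((N * E) m)).det = ∑ i, (N * E) m i * N.adjugate i m := by
    intro m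
    rw [← Matrix.cramer_transpose_apply, Matrix.cramer_eq_adjugate_mulVec,
      ← Matrix.adjugate_transpose]
    simp only [Matrix.mulVec, dotProduct, Matrix.transpose_apply]
    exact Finset.sum_congr rfl fun i _ => mul_comm _ _
  simp only [h1]
  have h2 : ∑ m, ∑ i, (N * E) m i * N.adjugate i m = ((N * E) * N.adjugate).trace := by
    simp [Matrix.trace, Matrix.mul_apply]
  rw [h2, Matrix.mul_assoc, Matrix.trace_mul_comm, Matrix.mul_assoc, Matrix.adjugate_mul]
  simp [Matrix.trace_smul, mul_comm]

section
variable {ι K : Type*} [Fintype ι] [DecidableEq ι] [CommRing K] {m q : ℕ}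

/-- the two kinds of rows -/
def rowU (a b : ι → K) (i : ι) : Fin m ⊕ Fin q → K :=
  Sum.elim (fun j => a i ^ (j : ℕ) * b i ^ (q - 2 - j)) (fun _ => 0)

def rowW (a b : ι → K) (i : ι) : Fin m ⊕ Fin q → K :=
  Sum.elim (fun _ => 0) (fun j => a i ^ (j : ℕ) * b i ^ (q - 1 - j))

def MT (e : Fin m ⊕ Fin q ≃ ι) (a b : ι → K) (T : Finset ι) :
    Matrix (Fin m ⊕ Fin q) (Fin m ⊕ Fin q) K :=
  Matrix.of fun p => if e p ∈ T then rowU a b (e p) else rowW a b (e p)

def phi (e : Fin m ⊕ Fin q ≃ ι) (a b : ι → K) (T : Finset ι) : K := (MT e a b T).det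

/-- the shift matrix -/
def ES (K : Type*) [CommRing K] (m q s : ℕ) : Matrix (Fin m ⊕ Fin q) (Fin m ⊕ Fin q) K :=
  Matrix.fromBlocks 0 0 (Matrix.of fun (j' : Fin q) (j : Fin m) => if (j' : ℕ) = j + s then 1 else 0) 0

theorem trace_ES (s : ℕ) : (ES K m q s).trace = 0 := by
  simp [ES, Matrix.trace]

theorem key (e : Fin m ⊕ Fin q ≃ ι) (a b : ι → K) (s : ℕ) (hs : s ≤ 1) (hq : m + 1 ≤ q)
    (S : Finset ι) :
    ∑ i, (if i ∈ S then 0 else (a i ^ s * b i ^ (1 - s)) * phi e a b (insert i S)) = 0 := by
  have h := sum_det_updateRow (MT e a b S) (ES K m q s)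
  rw [trace_ES, zero_mul] at h
  refine Eq.trans ?_ h
  rw [← Equiv.sum_comp e]
  refine Finset.sum_congr rfl fun p _ => ?_
  have hrow : ((MT e a b S) * (ES K m q s)) p =
      if e p ∈ S then 0 else (a (e p) ^ s * b (e p) ^ (1 - s)) • rowU a b (e p) := by
    funext r
    by_cases hp : e p ∈ S
    · simp only [Matrix.mul_apply, hp, if_true, Pi.zero_apply, MT, Matrix.of_apply]
      rw [Fintype.sum_sum_type]
      rcases r with r | r <;> simp [rowU, ES]
    · simp only [Matrix.mul_apply, hp, if_false, MT, Matrix.of_apply, Pi.smul_apply, smul_eq_mul]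
      rw [Fintype.sum_sum_type]
      rcases r with r | r
      · have hlt : (r : ℕ) + s < q := by have := r.2; omega
        rw [Finset.sum_eq_zero (fun x _ => by simp [rowW]), zero_add,
          Finset.sum_eq_single (⟨r + s, hlt⟩ : Fin q)]
        · simp only [rowW, rowU, ES, Sum.elim_inr, Sum.elim_inl, Matrix.fromBlocks_apply₂₁,
            Matrix.of_apply, if_true, mul_one]
          have h3 : q - 1 - (r + s) = (q - 2 - r) + (1 - s) := by have := r.2; omega
          rw [h3, pow_add, pow_add]; ring
        · intro x _ hx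
          simp only [ES, Matrix.fromBlocks_apply₂₁, Matrix.of_apply]
          rw [if_neg, mul_zero]
          intro h4; exact hx (Fin.ext h4)
        · intro h4; exact absurd (Finset.mem_univ _) h4
      · simp [rowU, ES, rowW]
  rw [hrow]
  by_cases hp : e p ∈ S
  · simp only [hp, if_true]
    symm
    apply Matrix.det_eq_zero_of_row_eq_zero p
    intro j; simp
  · simp only [hp, if_false]
    rw [Matrix.det_updateRow_smul]
    have hmat : MT e a b (insert (e p) S) = (MT e a b S).updateRow p (rowU a b (e p)) := by
      ext p' r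
      by_cases hpp : p' = p
      · subst hpp
        simp [MT]
      · simp only [MT, Matrix.of_apply, Matrix.updateRow_ne hpp, Finset.mem_insert]
        have : e p' ≠ e p := fun hh => hpp (e.injective hh)
        simp [this]
    rw [phi, hmat]

end

section
variable {ι K : Type*} [Fintype ι] [DecidableEq ι] [Field K] {m q : ℕ}

/-- nonvanishing at one point -/
theorem phi_ne_zero (e : Fin m ⊕ Fin q ≃ ι) (hq : m + 1 ≤ q) (t : ι → K)
    (ht : Function.Injective t) :
    phi e t (fun _ => 1) (Finset.univ.image fun j : Fin m => e (Sum.inl j)) ≠ 0 := by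
  have hM : MT e t (fun _ => (1 : K)) (Finset.univ.image fun j : Fin m => e (Sum.inl j)) =
      Matrix.fromBlocks (Matrix.vandermonde fun j : Fin m => t (e (Sum.inl j))) 0 0
        (Matrix.vandermonde fun j : Fin q => t (e (Sum.inr j))) := by
    ext p r
    rcases p with p | p <;> rcases r with r | r <;>
      simp [MT, rowU, rowW, Matrix.vandermonde]
  rw [phi, hM, Matrix.det_fromBlocks_zero₂₁]
  refine mul_ne_zero ?_ ?_
  · rw [Matrix.det_vandermonde_ne_zero_iff]
    exact ht.comp (e.injective.comp Sum.inl_injective)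
  · rw [Matrix.det_vandermonde_ne_zero_iff]
    exact ht.comp (e.injective.comp Sum.inr_injective)

/-- the functional on polynomials -/
noncomputable def gfun (e : Fin m ⊕ Fin q ≃ ι) (a b : ι → K) (μ : ι →₀ ℕ) : K :=
  if (∀ i, μ i ≤ 1) ∧ μ.support.card = m then phi e a b μ.support else 0

noncomputable def Lam (e : Fin m ⊕ Fin q ≃ ι) (a b : ι → K) : MvPolynomial ι K →ₗ[K] K :=
  (basisMonomials ι K).constr K (gfun e a b)

theorem Lam_monomial (e : Fin m ⊕ Fin q ≃ ι) (a b : ι → K) (μ : ι →₀ ℕ) (c : K) :
    Lam e a b (monomial μ c) = c * gfun e a b μ := by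
  have h : monomial μ c = c • (basisMonomials ι K) μ := by
    rw [coe_basisMonomials]; simp [smul_monomial]
  rw [h, map_smul, Lam, Module.Basis.constr_basis, smul_eq_mul]

theorem Lam_sq (e : Fin m ⊕ Fin q ≃ ι) (a b : ι → K) (p : MvPolynomial ι K) (i : ι) :
    Lam e a b (p * X i ^ 2) = 0 := by
  refine p.induction_on' (P := fun p => Lam e a b (p * X i ^ 2) = 0) ?_ ?_
  · intro μ c
    rw [X_pow_eq_monomial, monomial_mul, Lam_monomial]
    have : gfun e a b (μ + Finsupp.single i 2) = 0 := by
      rw [gfun, if_neg]
      rintro ⟨h, -⟩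
      have := h i
      simp at this
    rw [this, mul_zero]
  · intro p q hp hq
    rw [add_mul, map_add, hp, hq, add_zero]

theorem Lam_lin (e : Fin m ⊕ Fin q ≃ ι) (a b : ι → K) (s : ℕ) (hs : s ≤ 1) (hq : m + 1 ≤ q)
    (p : MvPolynomial ι K) :
    Lam e a b (p * ∑ i, C (a i ^ s * b i ^ (1 - s)) * X i) = 0 := by
  refine p.induction_on' (P := fun p => Lam e a b (p * ∑ i, C (a i ^ s * b i ^ (1 - s)) * X i) = 0)
    ?_ ?_
  · intro μ c
    rw [Finset.mul_sum, map_sum]
    have h1 : ∀ i, Lam e a b (monomial μ c * (C (a i ^ s * b i ^ (1 - s)) * X i)) =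
        c * ((a i ^ s * b i ^ (1 - s)) * gfun e a b (μ + Finsupp.single i 1)) := by
      intro i
      rw [C_mul_X_eq_monomial, monomial_mul, Lam_monomial]; ring
    simp only [h1]
    rw [← Finset.mul_sum]
    by_cases hsq : (∀ i, μ i ≤ 1) ∧ μ.support.card + 1 = m
    · have h2 : ∀ i, (a i ^ s * b i ^ (1 - s)) * gfun e a b (μ + Finsupp.single i 1) =
          if i ∈ μ.support then 0 else
            (a i ^ s * b i ^ (1 - s)) * phi e a b (insert i μ.support) := by
        intro i
        by_cases hi : i ∈ μ.support
        · rw [if_pos hi, gfun, if_neg, mul_zero]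
          rintro ⟨h, -⟩
          have h3 := h i
          have h4 : μ i ≠ 0 := Finsupp.mem_support_iff.mp hi
          simp at h3
          omega
        · rw [if_neg hi]
          have hsupp : (μ + Finsupp.single i 1).support = insert i μ.support := by
            ext j
            by_cases hj : j = i
            · subst hj; simp
            · simp [Finsupp.single_apply, Ne.symm hj, hj]
          rw [gfun, if_pos, hsupp]
          refine ⟨fun j => ?_, ?_⟩
          · by_cases hj : j = i
            · subst hj
              have : μ j = 0 := by simpa using hi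
              simp [this]
            · simpa [Finsupp.single_apply, Ne.symm hj] using hsq.1 j
          · rw [hsupp, Finset.card_insert_of_notMem hi, hsq.2]
      simp only [h2]
      rw [key e a b s hs hq μ.support, mul_zero]
    · have h2 : ∀ i, gfun e a b (μ + Finsupp.single i 1) = 0 := by
        intro i
        rw [gfun, if_neg]
        rintro ⟨h, h'⟩
        apply hsq
        have hle : ∀ j, μ j ≤ 1 := by
          intro j
          have := h j
          simp only [Finsupp.coe_add, Pi.add_apply] at this
          omega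
        refine ⟨hle, ?_⟩
        have hi : i ∉ μ.support := by
          intro hi
          have h3 := h i
          have h4 : μ i ≠ 0 := Finsupp.mem_support_iff.mp hi
          simp at h3
          omega
        have hsupp : (μ + Finsupp.single i 1).support = insert i μ.support := by
          ext j
          by_cases hj : j = i
          · subst hj; simp
          · simp [Finsupp.single_apply, Ne.symm hj, hj]
        rw [hsupp, Finset.card_insert_of_notMem hi] at h'
        exact h'
      simp [h2]
  · intro p q hp hq
    rw [add_mul, map_add, hp, hq, add_zero]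

theorem Lam_zero_of_mem (e : Fin m ⊕ Fin q ≃ ι) (a b : ι → K) (hq : m + 1 ≤ q)
    (x : MvPolynomial ι K)
    (hx : x ∈ Ideal.span (Set.range (fun i : ι => (X i : MvPolynomial ι K) ^ 2) ∪
      {∑ i, C (a i) * X i, ∑ i, C (b i) * X i})) :
    Lam e a b x = 0 := by
  have h : ∀ p, Lam e a b (p * x) = 0 := by
    refine Submodule.span_induction (p := fun x _ => ∀ p, Lam e a b (p * x) = 0) ?_ ?_ ?_ ?_ hx
    · rintro x (⟨i, rfl⟩ | rfl | rfl) p
      · exact Lam_sq e a b p i
      · have := Lam_lin e a b 1 le_rfl hq p
        simpa using this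
      · have := Lam_lin e a b 0 (by omega) hq p
        simpa using this
    · intro p; simp
    · intro x y _ _ h1 h2 p
      rw [mul_add, map_add, h1, h2, add_zero]
    · intro r x _ h1 p
      rw [smul_eq_mul, ← mul_assoc]
      exact h1 (p * r)
  simpa using h 1

end

end Pool.Agent.X178.SF
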